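import Pool.Agent.K3h63.IQ.Stm2

/-! Brick SGN of the project IQ (helper63, MP_868bb7_ag): the sign of `c * p` is a rational
polynomial in `c * p` (helper62). -/

set_option autoImplicit false

namespace Pool.Agent.K3h62.IQ

open Polynomial Pool.Agent.K3h63.IQ

universe w

theorem cop1 {R : Type*} [CommRing R] (a : R) (t : Multiset R) (h : ∀ b ∈ t, IsCoprime a b) :
    IsCoprime a t.prod := by
  induction t using Multiset.induction_on with
  | empty => simpa using isCoprime_one_right
  | cons b t ih =>
    rw [Multiset.prod_cons]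
    exact IsCoprime.mul_right (h b (Multiset.mem_cons_self b t))
      (ih fun b' hb => h b' (Multiset.mem_cons_of_mem hb))

theorem cop2 {R : Type*} [CommRing R] (s t : Multiset R) (h : ∀ a ∈ s, ∀ b ∈ t, IsCoprime a b) :
    IsCoprime s.prod t.prod :=
  (cop1 _ s fun a ha => (cop1 a t (h a ha)).symm).symm

theorem cop3 (s : Multiset ℚ) (hs : ∀ r ∈ s, 0 < r) :
    IsCoprime (s.map fun r : ℚ => (X - C r : ℚ[X])).prod
      ((s.map fun r : ℚ => (X - C r : ℚ[X])).prod.comp (-X)) := by
  rw [Polynomial.multiset_prod_comp, Multiset.map_map]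
  refine cop2 _ _ fun a ha b hb => ?_
  rw [Multiset.mem_map] at ha hb
  obtain ⟨x, hx, rfl⟩ := ha
  obtain ⟨y, hy, rfl⟩ := hb
  have e : ((fun p : ℚ[X] => p.comp (-X)) ∘ fun r : ℚ => (X - C r : ℚ[X])) y
      = -(X - C (-y)) := by
    simp
    ring
  rw [e]
  refine IsCoprime.neg_right (isCoprime_X_sub_C_of_isUnit_sub ?_)
  have : x - -y ≠ 0 := by
    have := hs x hx
    have := hs y hy
    linarith
  exact isUnit_iff_ne_zero.2 this

theorem aeval_mul {K A : Type*} [Field K] [Ring A] [Algebra K A] (x y e : A) (h1 : x * e = y * e)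
    (h2 : y * e = e * y) (H : K[X]) : aeval x H * e = aeval y H * e := by
  have hp : ∀ n : ℕ, x ^ n * e = y ^ n * e := by
    intro n
    induction n with
    | zero => simp
    | succ n ih =>
      rw [pow_succ, pow_succ, mul_assoc, h1, h2, ← mul_assoc, ih, mul_assoc, ← h2, ← mul_assoc]
  induction H using Polynomial.induction_on' with
  | add p q hp hq => rw [map_add, map_add, add_mul, add_mul, hp, hq]
  | monomial n a => rw [aeval_monomial, aeval_monomial, mul_assoc, hp, mul_assoc]

theorem t_SGN : S_SGN.{w} := by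
  intro K V _ _ _ _ c p s hp hc hs hF
  set F : ℚ[X] := (s.map fun r : ℚ => (X - C r : ℚ[X])).prod with hFd
  have hF1 : aeval c (F.map (algebraMap ℚ K)) = 0 := by
    rw [hFd, Polynomial.map_multiset_prod, Multiset.map_map, ← hF]
    congr 3
    funext r
    simp
  obtain ⟨a, b, hab⟩ := cop3 s hs
  rw [← hFd] at hab
  set φ := algebraMap ℚ K
  have h1 : (c * p) * (1 + p) = c * (1 + p) := by
    rw [mul_add, mul_add, mul_assoc c p p, hp, mul_one, mul_one, add_comm]
  have h2 : (c * p) * (1 - p) = (-c) * (1 - p) := by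
    rw [mul_sub, mul_sub, mul_assoc c p p, hp, mul_one, mul_one, mul_one, neg_mul]
    abel
  have e1 := aeval_mul (K := K) (c * p) c (1 + p) h1 (by rw [mul_add, add_mul, hc, one_mul, mul_one])
  have e2 := aeval_mul (K := K) (c * p) (-c) (1 - p) h2
    (by rw [mul_sub, sub_mul, one_mul, mul_one, neg_mul, mul_neg, hc])
  have f1 : aeval (c * p) (F.map φ) * (1 + p) = 0 := by rw [e1, hF1, zero_mul]
  have f2 : aeval (c * p) ((F.comp (-X)).map φ) * (1 - p) = 0 := by
    rw [e2, Polynomial.map_comp, aeval_comp]
    have : aeval (-c) ((-X : ℚ[X]).map φ) = c := by simp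
    rw [this, hF1, zero_mul]
  have g : aeval (c * p) (a.map φ) * aeval (c * p) (F.map φ) +
      aeval (c * p) (b.map φ) * aeval (c * p) ((F.comp (-X)).map φ) = 1 := by
    have := congrArg (fun H : ℚ[X] => aeval (c * p) (H.map φ)) hab
    simpa only [Polynomial.map_add, Polynomial.map_mul, map_add, map_mul, Polynomial.map_one,
      map_one] using this
  refine ⟨b * F.comp (-X) - a * F, ?_⟩
  rw [Polynomial.map_sub, Polynomial.map_mul, Polynomial.map_mul, map_sub, map_mul, map_mul]
  generalize aeval (c * p) (a.map φ) = A at *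
  generalize aeval (c * p) (F.map φ) = B at *
  generalize aeval (c * p) (b.map φ) = D at *
  generalize aeval (c * p) ((F.comp (-X)).map φ) = E at *
  have k1 : (D * E - A * B) * (1 + p) = 1 + p := by
    have : D * E - A * B = 1 - (A * B + A * B) := by rw [← g]; abel
    rw [this, sub_mul, one_mul, add_mul, mul_assoc A B, f1, mul_zero, add_zero, sub_zero]
  have k2 : (D * E - A * B) * (1 - p) = -(1 - p) := by
    have : D * E - A * B = (D * E + D * E) - 1 := by rw [← g]; abel
    rw [this, sub_mul, one_mul, add_mul, mul_assoc D E, f2, mul_zero, add_zero, zero_sub]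
  have k3 : (D * E - A * B) + (D * E - A * B) = p + p := by
    have : (D * E - A * B) * (1 + p) + (D * E - A * B) * (1 - p) = (1 + p) + -(1 - p) := by
      rw [k1, k2]
    rw [← mul_add, show (1 : Module.End K V) + p + (1 - p) = 1 + 1 by abel,
      show (1 : Module.End K V) + p + -(1 - p) = p + p by abel, mul_add, mul_one] at this
    exact this
  have k4 : (2 : K) • (D * E - A * B) = (2 : K) • p := by rw [two_smul, two_smul, k3]
  exact smul_right_injective _ (two_ne_zero' K) k4

end Pool.Agent.K3h62.IQ
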